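import Mathlib

set_option autoImplicit false

open Filter Topology Set
open scoped NNReal ENNReal RealInnerProductSpace

namespace Pool.Agent.Results.MP_714461_an.NowhereGateaux

/-- `φ : X → Y` is Gateaux differentiable at `x₀`: there is a bounded linear operator `T : X → Y`
such that `(φ (x₀ + t h) - φ x₀) / t → T h` in the norm of `Y`, as `t → 0`, for every `h`. -/
def GateauxDifferentiableAt {X Y : Type*} [NormedAddCommGroup X] [NormedSpace ℝ X]
    [NormedAddCommGroup Y] [NormedSpace ℝ Y] (φ : X → Y) (x₀ : X) : Prop :=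
  ∃ T : X →L[ℝ] Y, ∀ h : X,
    Tendsto (fun t : ℝ => t⁻¹ • (φ (x₀ + t • h) - φ x₀)) (𝓝[≠] (0 : ℝ)) (𝓝 (T h))

/-- `φ` is a Lipschitz homeomorphism of `X` onto `Y`: a bijection such that `φ` and its inverse
are Lipschitz. -/
def IsLipschitzHomeo {X Y : Type*} [NormedAddCommGroup X] [NormedAddCommGroup Y]
    (φ : X → Y) : Prop :=
  ∃ ψ : Y → X, Function.LeftInverse ψ φ ∧ Function.RightInverse ψ φ ∧
    (∃ K : ℝ≥0, LipschitzWith K φ) ∧ (∃ K : ℝ≥0, LipschitzWith K ψ)

/-- A real Banach space is reflexive if the canonical map into the double dual is onto. -/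
def Reflexive (X : Type*) [NormedAddCommGroup X] [NormedSpace ℝ X] : Prop :=
  Function.Surjective (NormedSpace.inclusionInDoubleDual ℝ X)

/-- `Z` is finitely representable in `X`: every finite dimensional subspace of `Z` embeds into
`X` by a linear map `T` with `‖v‖ ≤ ‖T v‖ ≤ (1 + ε) ‖v‖`, for every `ε > 0`. -/
def FinitelyRepresentable (Z X : Type*) [NormedAddCommGroup Z] [NormedSpace ℝ Z]
    [NormedAddCommGroup X] [NormedSpace ℝ X] : Prop :=
  ∀ E : Submodule ℝ Z, FiniteDimensional ℝ E → ∀ ε : ℝ, 0 < ε →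
    ∃ T : E →ₗ[ℝ] X, ∀ v : E, ‖v‖ ≤ ‖T v‖ ∧ ‖T v‖ ≤ (1 + ε) * ‖v‖

/-- `X` is superreflexive: every Banach space (in any universe `v`) finitely representable in
`X` is reflexive. -/
def Superreflexive.{u, v} (X : Type u) [NormedAddCommGroup X] [NormedSpace ℝ X] : Prop :=
  ∀ (Z : Type v) [NormedAddCommGroup Z] [NormedSpace ℝ Z] [CompleteSpace Z],
    FinitelyRepresentable Z X → Reflexive Z

theorem reflexive_hilbert (H : Type*) [NormedAddCommGroup H] [InnerProductSpace ℝ H]
    [CompleteSpace H] : Reflexive H := by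
  intro φ
  let f : H →L[ℝ] ℝ := LinearMap.mkContinuous
    { toFun := fun x => φ (InnerProductSpace.toDual ℝ H x)
      map_add' := fun x y => by simp
      map_smul' := fun c x => by
        rw [LinearIsometryEquiv.map_smulₛₗ]; simp } ‖φ‖ (by
      intro x
      simp only [LinearMap.coe_mk, AddHom.coe_mk]
      refine (φ.le_opNorm _).trans ?_
      rw [LinearIsometryEquiv.norm_map])
  refine ⟨(InnerProductSpace.toDual ℝ H).symm f, ?_⟩
  ext g
  rw [NormedSpace.dual_def]
  obtain ⟨x, rfl⟩ := (InnerProductSpace.toDual ℝ H).surjective g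
  rw [InnerProductSpace.toDual_apply_apply, real_inner_comm,
    ← InnerProductSpace.toDual_apply_apply (𝕜 := ℝ) (E := H), LinearIsometryEquiv.apply_symm_apply]
  rfl

theorem reflexive_of_parallelogram (Z : Type*) [NormedAddCommGroup Z] [NormedSpace ℝ Z]
    [CompleteSpace Z]
    (h : ∀ x y : Z, ‖x + y‖ * ‖x + y‖ + ‖x - y‖ * ‖x - y‖ = 2 * (‖x‖ * ‖x‖ + ‖y‖ * ‖y‖)) :
    Reflexive Z := by
  let _ : InnerProductSpace ℝ Z := InnerProductSpace.ofNorm ℝ h
  exact reflexive_hilbert Z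

theorem superreflexive_hilbert.{u, v} (H : Type u) [NormedAddCommGroup H] [InnerProductSpace ℝ H] :
    Superreflexive.{u, v} H := by
  intro Z _ _ _ hfr
  apply reflexive_of_parallelogram
  intro x y
  set E : Submodule ℝ Z := Submodule.span ℝ {x, y} with hE
  have hfin : FiniteDimensional ℝ E := by
    apply FiniteDimensional.span_of_finite
    simp
  have hx : x ∈ E := Submodule.subset_span (by simp)
  have hy : y ∈ E := Submodule.subset_span (by simp)
  have key : ∀ ε : ℝ, 0 < ε →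
      2 * (‖x‖ * ‖x‖ + ‖y‖ * ‖y‖) ≤ (1 + ε) ^ 2 * (‖x + y‖ * ‖x + y‖ + ‖x - y‖ * ‖x - y‖) ∧
      (‖x + y‖ * ‖x + y‖ + ‖x - y‖ * ‖x - y‖) ≤ (1 + ε) ^ 2 * (2 * (‖x‖ * ‖x‖ + ‖y‖ * ‖y‖)) := by
    intro ε hε
    obtain ⟨T, hT⟩ := hfr E hfin ε hε
    have hp := parallelogram_law_with_norm ℝ (T ⟨x, hx⟩) (T ⟨y, hy⟩)
    rw [← map_add, ← map_sub] at hp
    have h1 := hT ⟨x, hx⟩
    have h2 := hT ⟨y, hy⟩
    have h3 := hT (⟨x, hx⟩ + ⟨y, hy⟩)
    have h4 := hT (⟨x, hx⟩ - ⟨y, hy⟩)
    have e1 : ‖(⟨x, hx⟩ : E)‖ = ‖x‖ := rfl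
    have e2 : ‖(⟨y, hy⟩ : E)‖ = ‖y‖ := rfl
    have e3 : ‖((⟨x, hx⟩ : E) + ⟨y, hy⟩)‖ = ‖x + y‖ := rfl
    have e4 : ‖((⟨x, hx⟩ : E) - ⟨y, hy⟩)‖ = ‖x - y‖ := rfl
    rw [e1] at h1
    rw [e2] at h2
    rw [e3] at h3
    rw [e4] at h4
    have n1 := norm_nonneg x
    have n2 := norm_nonneg y
    have n3 := norm_nonneg (x + y)
    have n4 := norm_nonneg (x - y)
    have a1 := mul_self_le_mul_self n1 h1.1
    have a2 := mul_self_le_mul_self n2 h2.1
    have a3 := mul_self_le_mul_self n3 h3.1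
    have a4 := mul_self_le_mul_self n4 h4.1
    have b1 := mul_self_le_mul_self (norm_nonneg _) h1.2
    have b2 := mul_self_le_mul_self (norm_nonneg _) h2.2
    have b3 := mul_self_le_mul_self (norm_nonneg _) h3.2
    have b4 := mul_self_le_mul_self (norm_nonneg _) h4.2
    constructor <;> nlinarith
  have lim : Tendsto (fun ε : ℝ => (1 + ε) ^ 2) (𝓝[>] 0) (𝓝 1) := by
    have : Tendsto (fun ε : ℝ => (1 + ε) ^ 2) (𝓝 0) (𝓝 ((1 + 0) ^ 2)) :=
      Continuous.tendsto (by fun_prop) 0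
    simp only [add_zero, one_pow] at this
    exact this.mono_left nhdsWithin_le_nhds
  apply le_antisymm
  · have := lim.mul_const (2 * (‖x‖ * ‖x‖ + ‖y‖ * ‖y‖))
    rw [one_mul] at this
    refine ge_of_tendsto this ?_
    filter_upwards [self_mem_nhdsWithin] with ε hε
    exact (key ε hε).2
  · have := lim.mul_const (‖x + y‖ * ‖x + y‖ + ‖x - y‖ * ‖x - y‖)
    rw [one_mul] at this
    refine ge_of_tendsto this ?_
    filter_upwards [self_mem_nhdsWithin] with ε hε
    exact (key ε hε).1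

/-! ### The space `ℓ₂(Γ)`, `Γ = ℝ` (any uncountable index set would do) -/

/-- The (nonseparable) real Hilbert space `ℓ₂(ℝ)`. -/
abbrev X : Type := lp (fun _ : ℝ => ℝ) 2

/-- The coordinatewise absolute value. -/
noncomputable def absMap (x : X) : X :=
  ⟨fun γ => |x γ|, Memℓp.mono' (lp.memℓp x) (fun γ => by simp)⟩

theorem absMap_apply (x : X) (γ : ℝ) : absMap x γ = |x γ| := rfl

theorem lipschitz_absMap : LipschitzWith 1 absMap := by
  refine LipschitzWith.mk_one fun x y => ?_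
  rw [dist_eq_norm, dist_eq_norm]
  apply lp.norm_mono (by norm_num)
  intro γ
  rw [lp.coeFn_sub, lp.coeFn_sub, Pi.sub_apply, Pi.sub_apply, absMap_apply, absMap_apply]
  exact abs_abs_sub_abs_le_abs_sub _ _

/-- `φ x = x + |x| / 2`, coordinatewise. -/
noncomputable def phi (x : X) : X := x + (1 / 2 : ℝ) • absMap x

/-- The inverse of `φ`. -/
noncomputable def psi (y : X) : X := (4 / 3 : ℝ) • y - (2 / 3 : ℝ) • absMap y

theorem phi_apply (x : X) (γ : ℝ) : phi x γ = x γ + (1 / 2) * |x γ| := rfl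

theorem psi_apply (x : X) (γ : ℝ) : psi x γ = (4 / 3) * x γ - (2 / 3) * |x γ| := rfl

theorem psi_phi (x : X) : psi (phi x) = x := by
  apply lp.ext
  funext γ
  rw [psi_apply, phi_apply]
  rcases le_total 0 (x γ) with h | h
  · rw [abs_of_nonneg h, abs_of_nonneg (by linarith)]; ring
  · rw [abs_of_nonpos h, abs_of_nonpos (by linarith)]; ring

theorem phi_psi (x : X) : phi (psi x) = x := by
  apply lp.ext
  funext γ
  rw [phi_apply, psi_apply]
  rcases le_total 0 (x γ) with h | h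
  · rw [abs_of_nonneg h, abs_of_nonneg (by linarith)]; ring
  · rw [abs_of_nonpos h, abs_of_nonpos (by linarith)]; ring

theorem phi_homeo : IsLipschitzHomeo phi := by
  refine ⟨psi, psi_phi, phi_psi, ?_, ?_⟩
  · exact ⟨_, LipschitzWith.id.add ((lipschitzWith_smul (1 / 2 : ℝ)).comp lipschitz_absMap)⟩
  · exact ⟨_, (lipschitzWith_smul (4 / 3 : ℝ)).sub
      ((lipschitzWith_smul (2 / 3 : ℝ)).comp lipschitz_absMap)⟩

theorem not_separable : ¬ TopologicalSpace.SeparableSpace X := by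
  intro hsep
  have hcount : (Set.univ : Set ℝ).Countable := by
    refine Set.PairwiseDisjoint.countable_of_isOpen (α := X)
      (s := fun γ : ℝ => Metric.ball (lp.single 2 γ (1 : ℝ)) (1 / 2)) ?_ ?_ ?_
    · intro a _ b _ hab
      apply Metric.ball_disjoint_ball
      rw [dist_eq_norm]
      have h := lp.norm_apply_le_norm (p := 2) (by norm_num)
        ((lp.single 2 a (1 : ℝ) : X) - lp.single 2 b (1 : ℝ)) a
      rw [lp.coeFn_sub, Pi.sub_apply, lp.single_apply_self, lp.single_apply_ne _ _ _ hab] at h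
      norm_num at h ⊢
      exact h
    · intro a _
      exact Metric.isOpen_ball
    · intro a _
      exact ⟨_, Metric.mem_ball_self (by norm_num)⟩
  exact Cardinal.not_countable_real hcount

theorem exists_zero_coord (x : X) : ∃ γ : ℝ, x γ = 0 := by
  by_contra hne
  push Not at hne
  have hs : Summable fun γ : ℝ => ‖x γ‖ ^ (2 : ℝ≥0∞).toReal :=
    (lp.memℓp x).summable (by norm_num)
  have hc := hs.countable_support
  have : Function.support (fun γ : ℝ => ‖x γ‖ ^ (2 : ℝ≥0∞).toReal) = Set.univ := by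
    ext γ
    simp [hne γ]
  rw [this] at hc
  exact Cardinal.not_countable_real hc

theorem not_differentiable (x : X) : ¬ GateauxDifferentiableAt phi x := by
  rintro ⟨T, hT⟩
  obtain ⟨γ, hγ⟩ := exists_zero_coord x
  set e : X := lp.single 2 γ (1 : ℝ) with he
  have h := hT e
  have hev : Tendsto (fun t : ℝ => (t⁻¹ • (phi (x + t • e) - phi x) : X) γ) (𝓝[≠] (0 : ℝ))
      (𝓝 (T e γ)) :=
    ((lp.lipschitzWith_one_eval (E := fun _ : ℝ => ℝ) 2 γ).continuous.tendsto _).comp h
  have hval : ∀ t : ℝ, (t⁻¹ • (phi (x + t • e) - phi x) : X) γ = t⁻¹ * (t + (1 / 2) * |t|) := by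
    intro t
    have h1 : (x + t • e) γ = t := by
      rw [lp.coeFn_add, Pi.add_apply, lp.coeFn_smul, Pi.smul_apply, he, lp.single_apply_self, hγ]
      simp
    rw [lp.coeFn_smul, Pi.smul_apply, lp.coeFn_sub, Pi.sub_apply, phi_apply, phi_apply, h1, hγ]
    simp
  simp_rw [hval] at hev
  have hpos : Tendsto (fun t : ℝ => t⁻¹ * (t + (1 / 2) * |t|)) (𝓝[>] (0 : ℝ)) (𝓝 (3 / 2)) := by
    refine Tendsto.congr' ?_ tendsto_const_nhds
    filter_upwards [self_mem_nhdsWithin] with t ht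
    have ht' : (0 : ℝ) < t := ht
    rw [abs_of_pos ht']
    field_simp
    norm_num
  have hneg : Tendsto (fun t : ℝ => t⁻¹ * (t + (1 / 2) * |t|)) (𝓝[<] (0 : ℝ)) (𝓝 (1 / 2)) := by
    refine Tendsto.congr' ?_ tendsto_const_nhds
    filter_upwards [self_mem_nhdsWithin] with t ht
    have ht' : t < (0 : ℝ) := ht
    rw [abs_of_neg ht']
    have : t ≠ 0 := ht'.ne
    field_simp
    norm_num
  have s1 : 𝓝[>] (0 : ℝ) ≤ 𝓝[≠] (0 : ℝ) :=
    nhdsWithin_mono _ fun t (ht : (0 : ℝ) < t) => ne_of_gt ht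
  have s2 : 𝓝[<] (0 : ℝ) ≤ 𝓝[≠] (0 : ℝ) :=
    nhdsWithin_mono _ fun t (ht : t < (0 : ℝ)) => ne_of_lt ht
  have h1 := tendsto_nhds_unique (hev.mono_left s1) hpos
  have h2 := tendsto_nhds_unique (hev.mono_left s2) hneg
  rw [h1] at h2
  norm_num at h2

/-- There are nonseparable superreflexive (in particular reflexive; here even Hilbert, so
uniformly convex) real Banach spaces `X`, `Y` and a Lipschitz homeomorphism of `X` onto `Y` which
is Gateaux differentiable at no point. This answers Q1 and Q2 in the negative. -/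
theorem result.{v} :
    ∃ (X : Type) (_ : NormedAddCommGroup X) (_ : NormedSpace ℝ X) (_ : CompleteSpace X)
      (Y : Type) (_ : NormedAddCommGroup Y) (_ : NormedSpace ℝ Y) (_ : CompleteSpace Y),
      (¬ TopologicalSpace.SeparableSpace X ∧ ¬ TopologicalSpace.SeparableSpace Y) ∧
      (Reflexive X ∧ Reflexive Y) ∧
      (Superreflexive.{0, v} X ∧ Superreflexive.{0, v} Y) ∧
      (UniformConvexSpace X ∧ UniformConvexSpace Y) ∧
      ∃ φ : X → Y, IsLipschitzHomeo φ ∧ ∀ x₀ : X, ¬ GateauxDifferentiableAt φ x₀ := by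
  refine ⟨X, inferInstance, inferInstance, inferInstance, X, inferInstance, inferInstance,
    inferInstance, ⟨not_separable, not_separable⟩, ⟨reflexive_hilbert X, reflexive_hilbert X⟩,
    ⟨superreflexive_hilbert X, superreflexive_hilbert X⟩, ⟨inferInstance, inferInstance⟩,
    phi, phi_homeo, not_differentiable⟩

end Pool.Agent.Results.MP_714461_an.NowhereGateaux
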